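import Pool.Agent.PFD.StmtsD3

/-!
# Squad PFD, block D3, row CPE: the derivation of a crossed product, coefficientwise
-/

set_option autoImplicit false

namespace Pool.Agent.PFD.D3.H51

open scoped BigOperators

open Pool.Agent.PFD

theorem cpe : CpeStmt := by
  intro k S E _ _ _ _ _ D v hv hact
  have hv1 : v 1 = 0 := by
    have h := hv 1 1
    rw [mul_one, mul_one, one_mul] at h
    have h2 : v 1 + v 1 = v 1 + 0 := by rw [add_zero]; exact h.symm
    exact add_left_cancel h2
  let vc : CP D →ₗ[k] CP D :=
    { toFun := fun a => ⟨fun e => v (a.f e)⟩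
      map_add' := fun a b => by
        apply CP.ext; funext e
        show v ((a + b).f e) = v (a.f e) + v (b.f e)
        rw [CP.add_f, map_add]
      map_smul' := fun r a => by
        apply CP.ext; funext e
        show v ((r • a).f e) = r • v (a.f e)
        rw [CP.smul_f, map_smul] }
  have hf : ∀ a e, (vc a).f e = v (a.f e) := fun a e => rfl
  have hsn : ∀ s e, vc (CP.sn D s e) = CP.sn D (v s) e := by
    intro s e
    apply CP.ext; funext h
    rw [hf, CP.sn_f, CP.sn_f]
    by_cases hh : h = e
    · rw [if_pos hh, if_pos hh]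
    · rw [if_neg hh, if_neg hh, map_zero]
  refine ⟨vc, hf, ?_, ?_, ?_⟩
  · intro a b
    apply CP.ext; funext e
    rw [hf, CP.mul_f, CP.add_f, CP.mul_f, CP.mul_f, map_sum, ← Finset.sum_add_distrib]
    apply Finset.sum_congr rfl
    intro h _
    rw [map_smul, hv, hf, hf, smul_add, hact]
  · intro e
    show vc (CP.sn D 1 e) = 0
    rw [hsn, hv1, CP.sn_zero]
  · intro s
    show vc (CP.sn D s 1) = CP.sn D (v s) 1
    exact hsn s 1

end Pool.Agent.PFD.D3.H51
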